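import Mathlib
import Pool.Agent.H89.Out3

/-!
# AverageLowerBound: the proof
-/

open Finset Filter Topology

namespace Pool.H55.MV.AverageLowerBound

open Pool.Agent.H89.Disc

/-- every lattice point set has discrepancy at least `1 / (2N)` -/
lemma disc_lower (E N : ℕ) (hN : 1 ≤ N) (a : Fin (E + 2) → ℕ) : 1 / (2 * (N:ℝ)) ≤ discrepancy (E + 2) N a := by
  have hN' : (1:ℝ) ≤ N := by exact_mod_cast hN
  have hδ : 1 / (2 * (N:ℝ)) ≤ 1 := by
    rw [div_le_one (by positivity)]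
    linarith
  have hδ0 : 0 < 1 / (2 * (N:ℝ)) := by positivity
  have h1 := le_disc (E + 2) N a (fun _ => 0) (fun _ => 1 / (2 * (N:ℝ))) (fun i => ⟨le_rfl, hδ0.le, hδ⟩)
  have h2 : 1 ≤ boxCount (E + 2) N a (fun _ => 0) (fun _ => 1 / (2 * (N:ℝ))) := by
    unfold boxCount
    apply (Set.ncard_pos ((Set.finite_lt_nat N).subset (fun n hn => hn.1))).mpr
    refine ⟨0, by omega, ?_⟩
    intro i
    simp only [Nat.cast_zero, zero_mul, zero_div, Int.fract_zero, Set.mem_Ico]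
    exact ⟨le_rfl, hδ0⟩
  have h3 : (1:ℝ) ≤ boxCount (E + 2) N a (fun _ => 0) (fun _ => 1 / (2 * (N:ℝ))) := by exact_mod_cast h2
  have h4 : ∏ _i : Fin (E + 2), (1 / (2 * (N:ℝ)) - 0) ≤ 1 / (2 * (N:ℝ)) := by
    simp only [sub_zero, Finset.prod_const, Finset.card_univ, Fintype.card_fin]
    calc (1 / (2 * (N:ℝ))) ^ (E + 2) ≤ (1 / (2 * (N:ℝ))) ^ 1 := pow_le_pow_of_le_one hδ0.le hδ (by omega)
      _ = _ := pow_one _
  have h5 : 1 / (N:ℝ) ≤ (boxCount (E + 2) N a (fun _ => 0) (fun _ => 1 / (2 * (N:ℝ))) : ℝ) / N := by gcongr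
  have h6 : 1 / (N:ℝ) = 1 / (2 * (N:ℝ)) + 1 / (2 * (N:ℝ)) := by field_simp; norm_num
  have h7 := le_abs_self ((boxCount (E + 2) N a (fun _ => 0) (fun _ => 1 / (2 * (N:ℝ))) : ℝ) / N -
    ∏ _i : Fin (E + 2), (1 / (2 * (N:ℝ)) - 0))
  linarith

/-- comparison of the parameters with `log N` -/
lemma log_compare (E a0 N : ℕ) (ha0 : 16 ≤ a0) (hN1 : 1 ≤ N) (hN : Nat.log 2 N / (32 * (E + 3)) = a0) :
    (Real.log N) ^ (E + 1) * Real.log (Real.log N) ≤
      ((64 * ((E:ℝ) + 3)) ^ (E + 1) * (64 * ((E:ℝ) + 3) + 8)) * (Jp a0 * (a0:ℝ) ^ (E + 1)) := by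
  have hNr : (1:ℝ) ≤ N := by exact_mod_cast hN1
  have ha0r : (16:ℝ) ≤ a0 := by exact_mod_cast ha0
  have hN3 : (N:ℝ) ≤ 2 ^ (64 * (E + 3) * a0) := by
    have h1 : Nat.log 2 N < 32 * (E + 3) * (a0 + 1) := by
      have h2 : Nat.log 2 N / (32 * (E + 3)) < a0 + 1 := by omega
      have h3 := (Nat.div_lt_iff_lt_mul (by positivity)).mp h2
      linarith
    have h2 : N < 2 ^ (Nat.log 2 N + 1) := Nat.lt_pow_succ_log_self (by norm_num) N
    have h3 : N ≤ 2 ^ (64 * (E + 3) * a0) := by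
      calc N ≤ 2 ^ (Nat.log 2 N + 1) := h2.le
        _ ≤ 2 ^ (64 * (E + 3) * a0) := by
            apply Nat.pow_le_pow_right (by norm_num)
            have h4 : 32 * (E + 3) * (a0 + 1) ≤ 64 * (E + 3) * a0 := by nlinarith
            omega
    exact_mod_cast h3
  have hl2 : Real.log 2 < 1 := by have := Real.log_two_lt_d9; linarith
  have hl20 : 0 < Real.log 2 := Real.log_pos (by norm_num)
  set Cd : ℝ := 64 * ((E:ℝ) + 3) with hCd
  have hCd1 : 1 ≤ Cd := by
    rw [hCd]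
    have : (0:ℝ) ≤ E := Nat.cast_nonneg _
    linarith
  have hlogN : Real.log N ≤ Cd * a0 := by
    have h1 := Real.log_le_log (by linarith) hN3
    rw [Real.log_pow] at h1
    push_cast at h1
    have h2 : (64 * ((E:ℝ) + 3) * a0) * Real.log 2 ≤ (64 * ((E:ℝ) + 3) * a0) * 1 := by gcongr
    rw [hCd]
    linarith
  have hlogN0 : 0 ≤ Real.log N := Real.log_nonneg hNr
  -- the number of levels
  set m : ℕ := rt a0 with hm
  have hm2 : 2 ≤ m := by
    rw [hm]
    unfold rt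
    rw [Nat.le_sqrt', Nat.le_sqrt']
    calc (2 ^ 2) ^ 2 = 16 := by norm_num
      _ ≤ a0 := ha0
  have hJ1 : 1 ≤ Jp a0 := Nat.log_pos (by norm_num) (by omega)
  have hJr : (1:ℝ) ≤ Jp a0 := by exact_mod_cast hJ1
  have hloga0 : Real.log a0 ≤ 8 * Jp a0 := by
    have h1 : a0 < (m + 1) ^ 4 := lt_rt_succ a0
    have h2 : m < 2 ^ (Jp a0 + 1) := Nat.lt_pow_succ_log_self (by norm_num) m
    have h3 : a0 ≤ 2 ^ (4 * (Jp a0 + 1)) := by
      calc a0 ≤ (m + 1) ^ 4 := h1.le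
        _ ≤ (2 ^ (Jp a0 + 1)) ^ 4 := Nat.pow_le_pow_left h2 4
        _ = 2 ^ (4 * (Jp a0 + 1)) := by rw [← pow_mul]; congr 1; ring
    have h4 : (a0:ℝ) ≤ 2 ^ (4 * (Jp a0 + 1)) := by exact_mod_cast h3
    have h5 := Real.log_le_log (by linarith) h4
    rw [Real.log_pow] at h5
    push_cast at h5
    nlinarith
  have hloglog : Real.log (Real.log N) ≤ (Cd + 8) * Jp a0 := by
    rcases hlogN0.eq_or_lt with h0 | h0
    · rw [← h0, Real.log_zero]
      positivity
    · have h1 := Real.log_le_log h0 hlogN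
      rw [Real.log_mul (by linarith) (by linarith)] at h1
      have h2 : Real.log Cd ≤ Cd := by
        have := Real.log_le_sub_one_of_pos (x := Cd) (by linarith)
        linarith
      nlinarith
  calc (Real.log N) ^ (E + 1) * Real.log (Real.log N) ≤ (Real.log N) ^ (E + 1) * ((Cd + 8) * Jp a0) :=
        mul_le_mul_of_nonneg_left hloglog (by positivity)
    _ ≤ (Cd * a0) ^ (E + 1) * ((Cd + 8) * Jp a0) := by
        apply mul_le_mul_of_nonneg_right _ (by positivity)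
        exact pow_le_pow_left₀ hlogN0 hlogN _
    _ = _ := by ring

/-- For every dimension `d ≥ 2` and every `χ < 1` there is a constant `C > 0` such that, for every
`N ≥ 1`, at least `χ N^d` of the tuples `a ∈ {0, ..., N-1}^d` have
`D_N(a) ≥ C (log N)^{d-1} log log N / N`. -/
theorem result (d : ℕ) (hd : 2 ≤ d) (χ : ℝ) (hχ : χ < 1) :
    ∃ C : ℝ, 0 < C ∧ ∀ N : ℕ, 1 ≤ N →
      χ * (N:ℝ) ^ d ≤ (Set.ncard {a : Fin d → Fin N |
        C * ((Real.log N) ^ (d - 1) * Real.log (Real.log N) / N) ≤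
          discrepancy d N (fun i => (a i : ℕ))} : ℝ) := by
  classical
  obtain ⟨E, rfl⟩ : ∃ E, d = E + 2 := ⟨d - 2, by omega⟩
  have e1 : E + 2 - 1 = E + 1 := rfl
  rw [e1]
  obtain ⟨c, hc, hev⟩ := main_ev E (1 - χ) (by linarith)
  obtain ⟨A0, hA0⟩ := eventually_atTop.mp hev
  set A1 : ℕ := max A0 16 with hA1
  set N0 : ℕ := 2 ^ (32 * (E + 3) * A1) with hN0
  set X : ℝ := (Real.log N0) ^ (E + 2) with hX
  have hX0 : 0 ≤ X := by
    rw [hX]
    have := Real.log_natCast_nonneg N0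
    positivity
  set Q : ℝ := (64 * ((E:ℝ) + 3)) ^ (E + 1) * (64 * ((E:ℝ) + 3) + 8) with hQ
  have hQpos : 0 < Q := by rw [hQ]; positivity
  refine ⟨min (c / Q) (1 / (2 * (X + 1))), lt_min (by positivity) (by positivity), ?_⟩
  intro N hN
  have hNr : (1:ℝ) ≤ N := by exact_mod_cast hN
  have hlogN0 : 0 ≤ Real.log N := Real.log_nonneg hNr
  by_cases hlarge : N0 ≤ N
  · -- large N
    obtain ⟨a0, ha0⟩ : ∃ a0, Nat.log 2 N / (32 * (E + 3)) = a0 := ⟨_, rfl⟩
    have ha0A : A1 ≤ a0 := by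
      rw [← ha0, Nat.le_div_iff_mul_le (by positivity)]
      apply Nat.le_log_of_pow_le (by norm_num)
      calc 2 ^ (A1 * (32 * (E + 3))) = N0 := by rw [hN0]; congr 1; ring
        _ ≤ N := hlarge
    have hcmp := log_compare E a0 N ((le_max_right _ _).trans ha0A) hN ha0
    rw [← hQ] at hcmp
    obtain ⟨n, rfl⟩ : ∃ n, N = n + 1 := ⟨N - 1, by omega⟩
    have hbad : ((univ.filter (fun x : Fin (E + 2) → Fin (n + 1) => ((n + 1 : ℕ) : ℝ) * discrepancy (E + 2) (n + 1) (fun i => (x i : ℕ)) <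
        c * Jp a0 * (a0:ℝ) ^ (E + 1))).card : ℝ) ≤ (1 - χ) * (((n + 1 : ℕ)) : ℝ) ^ (E + 2) :=
      hA0 a0 ((le_max_left _ _).trans ha0A) (n + 1) ha0
    have hsplit := Finset.card_filter_add_card_filter_not (s := (univ : Finset (Fin (E + 2) → Fin (n + 1))))
      (fun x : Fin (E + 2) → Fin (n + 1) => ((n + 1 : ℕ) : ℝ) * discrepancy (E + 2) (n + 1) (fun i => (x i : ℕ)) <
        c * Jp a0 * (a0:ℝ) ^ (E + 1))
    have hcardU : (univ : Finset (Fin (E + 2) → Fin (n + 1))).card = (n + 1) ^ (E + 2) := by simp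
    rw [hcardU] at hsplit
    have hsplit' : ((univ.filter (fun x : Fin (E + 2) → Fin (n + 1) => ((n + 1 : ℕ) : ℝ) * discrepancy (E + 2) (n + 1) (fun i => (x i : ℕ)) <
        c * Jp a0 * (a0:ℝ) ^ (E + 1))).card : ℝ) + ((univ.filter (fun x : Fin (E + 2) → Fin (n + 1) => ¬ (((n + 1 : ℕ) : ℝ) * discrepancy (E + 2) (n + 1) (fun i => (x i : ℕ)) <
        c * Jp a0 * (a0:ℝ) ^ (E + 1)))).card : ℝ) = (((n + 1 : ℕ)) : ℝ) ^ (E + 2) := by
      exact_mod_cast hsplit
    have hle : (univ.filter (fun x : Fin (E + 2) → Fin (n + 1) => ¬ (((n + 1 : ℕ) : ℝ) * discrepancy (E + 2) (n + 1) (fun i => (x i : ℕ)) <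
        c * Jp a0 * (a0:ℝ) ^ (E + 1)))).card ≤ Set.ncard {a : Fin (E + 2) → Fin (n + 1) |
        min (c / Q) (1 / (2 * (X + 1))) * ((Real.log ((n + 1 : ℕ) : ℝ)) ^ (E + 1) * Real.log (Real.log ((n + 1 : ℕ) : ℝ)) / ((n + 1 : ℕ) : ℝ)) ≤
          discrepancy (E + 2) (n + 1) (fun i => (a i : ℕ))} := by
      rw [← Set.ncard_coe_finset]
      apply Set.ncard_le_ncard _ (Set.toFinite _)
      intro x hx
      rw [Finset.mem_coe, Finset.mem_filter] at hx
      have h1 := not_lt.mp hx.2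
      rw [Set.mem_ofPred_eq]
      have hnpos : (0:ℝ) < ((n + 1 : ℕ) : ℝ) := by linarith
      rcases le_or_gt 0 ((Real.log ((n + 1 : ℕ) : ℝ)) ^ (E + 1) * Real.log (Real.log ((n + 1 : ℕ) : ℝ))) with h2 | h2
      · have h3 : min (c / Q) (1 / (2 * (X + 1))) * ((Real.log ((n + 1 : ℕ) : ℝ)) ^ (E + 1) * Real.log (Real.log ((n + 1 : ℕ) : ℝ)) / ((n + 1 : ℕ) : ℝ)) ≤
            c / Q * ((Real.log ((n + 1 : ℕ) : ℝ)) ^ (E + 1) * Real.log (Real.log ((n + 1 : ℕ) : ℝ)) / ((n + 1 : ℕ) : ℝ)) := by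
          apply mul_le_mul_of_nonneg_right (min_le_left _ _)
          positivity
        refine h3.trans ?_
        rw [← mul_div_assoc, div_le_iff₀ hnpos]
        calc c / Q * ((Real.log ((n + 1 : ℕ) : ℝ)) ^ (E + 1) * Real.log (Real.log ((n + 1 : ℕ) : ℝ))) ≤
              c / Q * (Q * (Jp a0 * (a0:ℝ) ^ (E + 1))) := by gcongr
          _ = c * Jp a0 * (a0:ℝ) ^ (E + 1) := by field_simp
          _ ≤ ((n + 1 : ℕ) : ℝ) * discrepancy (E + 2) (n + 1) (fun i => (x i : ℕ)) := h1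
          _ = _ := by ring
      · have h3 := disc_lower E (n + 1) hN (fun i => (x i : ℕ))
        have h4 : min (c / Q) (1 / (2 * (X + 1))) * ((Real.log ((n + 1 : ℕ) : ℝ)) ^ (E + 1) * Real.log (Real.log ((n + 1 : ℕ) : ℝ)) / ((n + 1 : ℕ) : ℝ)) ≤ 0 := by
          apply mul_nonpos_of_nonneg_of_nonpos
          · exact (lt_min (by positivity) (by positivity)).le
          · exact div_nonpos_of_nonpos_of_nonneg h2.le hnpos.le
        have h5 : 0 < 1 / (2 * ((n + 1 : ℕ) : ℝ)) := by positivity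
        linarith
    have hle' : ((univ.filter (fun x : Fin (E + 2) → Fin (n + 1) => ¬ (((n + 1 : ℕ) : ℝ) * discrepancy (E + 2) (n + 1) (fun i => (x i : ℕ)) <
        c * Jp a0 * (a0:ℝ) ^ (E + 1)))).card : ℝ) ≤ _ := Nat.cast_le.mpr hle
    linarith
  · -- small N
    have hall : {a : Fin (E + 2) → Fin N |
        min (c / Q) (1 / (2 * (X + 1))) * ((Real.log N) ^ (E + 1) * Real.log (Real.log N) / N) ≤
          discrepancy (E + 2) N (fun i => (a i : ℕ))} = Set.univ := by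
      rw [Set.eq_univ_iff_forall]
      intro a
      rw [Set.mem_ofPred_eq]
      have h3 := disc_lower E N hN (fun i => (a i : ℕ))
      refine le_trans ?_ h3
      have h4 : (Real.log N) ^ (E + 1) * Real.log (Real.log N) ≤ X := by
        have h5 : Real.log (Real.log N) ≤ Real.log N := Real.log_le_self hlogN0
        have h6 : Real.log N ≤ Real.log N0 := by
          apply Real.log_le_log (by linarith)
          exact_mod_cast (not_le.mp hlarge).le
        calc (Real.log N) ^ (E + 1) * Real.log (Real.log N) ≤ (Real.log N) ^ (E + 1) * Real.log N :=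
              mul_le_mul_of_nonneg_left h5 (by positivity)
          _ = (Real.log N) ^ (E + 2) := by ring
          _ ≤ X := by rw [hX]; exact pow_le_pow_left₀ hlogN0 h6 _
      have h7 : min (c / Q) (1 / (2 * (X + 1))) * ((Real.log N) ^ (E + 1) * Real.log (Real.log N) / N) ≤
          min (c / Q) (1 / (2 * (X + 1))) * (X / N) := by
        apply mul_le_mul_of_nonneg_left _ (lt_min (by positivity) (by positivity)).le
        gcongr
      have h8 : min (c / Q) (1 / (2 * (X + 1))) * (X / N) ≤ 1 / (2 * (X + 1)) * (X / N) := by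
        apply mul_le_mul_of_nonneg_right (min_le_right _ _)
        positivity
      have h9 : 1 / (2 * (X + 1)) * (X / N) ≤ 1 / (2 * (N:ℝ)) := by
        rw [div_mul_div_comm, div_le_div_iff₀ (by positivity) (by positivity)]
        nlinarith
      linarith
    rw [hall, Set.ncard_univ, Nat.card_eq_fintype_card, Fintype.card_fun, Fintype.card_fin, Fintype.card_fin]
    push_cast
    have : (0:ℝ) ≤ (N:ℝ) ^ (E + 2) := by positivity
    nlinarith

end Pool.H55.MV.AverageLowerBound
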